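import Pool.Agent.L7h11.RQ.Step
import Pool.Agent.L7h44.RQ5.Nv
import Pool.Agent.L7h44.RQ5.Vn
import Pool.Agent.L7h66.RQ5.Fek
import Pool.Agent.L7h73.RQ5.Sml

/-!
# Distinct quotients `a_j / (a_i, a_j)`: the exponent of `h(n)` is `1 / 2`

`log h(n) / log n` converges to `1 / 2`.

Proof.  Exponents of primes: finite sets `X` of vectors in `ℤ^q`, and the set `T X` of the positive parts
of the differences.  From `X` we build `X' = {(N k + x, - N k + y) : 0 ≤ k < W, x, y ∈ X}` in `ℤ^(2 q)`,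
where `N k` is added to all coordinates and `N` is large.  For equal `k` the positive parts of the
differences lie in `T X × T X`; for different `k` one half of the positive part vanishes, and the
other half is `N |k - k'| + (x - x')`.  So `|X'| = W |X|²`, `|T X'| ≤ |T X|² + 2 W |X - X|` and
`|X' - X'| ≤ 2 W |X - X|²`.  Starting from `{0, ..., W - 1} ⊆ ℤ` we obtain sets with
`|X_m| = W ^ (2 ^ (m + 1) - 1)` and `|T X_m| ≤ c_m W ^ (2 ^ m)`; the exponents `2 ^ m / (2 ^ (m + 1) - 1)`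
converge to `1 / 2`.  The lower bound is `n ≤ h(n) ^ 2`.
-/

set_option autoImplicit false

open Filter Topology

namespace Pool.Agent.Results.MP_f9e5d9_nt.LimitIsOneHalf

/-- the set of the quotients `b / (a, b)`, `a, b ∈ A` -/
def R (A : Finset ℕ) : Finset ℕ := (A ×ˢ A).image (fun p => p.2 / Nat.gcd p.1 p.2)

/-- `h n` = the least size of `R A` over all sets `A` of `n` positive integers -/
noncomputable def h (n : ℕ) : ℕ :=
  sInf {k | ∃ A : Finset ℕ, (∀ a ∈ A, 0 < a) ∧ A.card = n ∧ (R A).card = k}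

lemma h_eq : h = L7h35.RQ5.h := rfl

/-- if `W ^ a ≤ c` for all `W ≥ 1` then `a ≤ 0` -/
lemma nonpos_of_bounded {a c : ℝ} (h : ∀ W : ℕ, 1 ≤ W → (W : ℝ) ^ a ≤ c) : a ≤ 0 := by
  by_contra ha
  push Not at ha
  have h1 : Tendsto (fun W : ℕ => (W : ℝ) ^ a) atTop atTop :=
    (tendsto_rpow_atTop ha).comp tendsto_natCast_atTop_atTop
  obtain ⟨W, hW1, hW2⟩ := ((eventually_ge_atTop 1).and (h1.eventually_gt_atTop c)).exists
  exact absurd (h W hW1) (not_le.2 hW2)

/-- the bounds along the levels -/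
lemma level (m : ℕ) : ∃ e c : ℕ, e + 1 = 2 ^ (m + 1) ∧
    ∀ W : ℕ, 1 ≤ W → L7h35.RQ5.h (W ^ e) ≤ c * W ^ 2 ^ m := by
  obtain ⟨ι, h1, _, e, c, he, hs⟩ := L7h11.RQ.sets m
  refine ⟨e, c, he, fun W hW => ?_⟩
  obtain ⟨X, hX, hT, -⟩ := hs W hW
  have := L7h44.RQ5.s_VN ι h1 X
  rw [hX] at this
  exact this.trans hT

/-- **The limit of `log h(n) / log n` is `1 / 2`.** -/
theorem result :
    Tendsto (fun n : ℕ => Real.log (h n) / Real.log n) atTop (𝓝 (1 / 2)) := by
  rw [h_eq]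
  have hSUB := L7h73.RQ5.s_SUB L7h44.RQ5.s_VN L7h44.RQ5.s_NV
  have hMON : L7h35.RQ5.S_MON := L7h73.RQ5.s_MON
  have hLOW : L7h35.RQ5.S_LOW := L7h73.RQ5.s_LOW
  obtain ⟨L, h1, h2, h3⟩ := L7h66.RQ5.s_FEK L7h35.RQ5.h (fun m n hmn => hMON m n hmn) hSUB hLOW
  suffices hL : L = 1 / 2 by rwa [hL] at h1
  refine le_antisymm ?_ h2
  -- the bound of level `m`
  have key : ∀ m : ℕ, (2 : ℝ) ^ (m + 1) * (L - 1 / 2) ≤ L := by
    intro m
    obtain ⟨e, c, he, hs⟩ := level m
    have h4 : (e : ℝ) * L - 2 ^ m ≤ 0 := by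
      apply nonpos_of_bounded (c := c)
      intro W hW
      have hW0 : (0 : ℝ) < W := by exact_mod_cast hW
      have h5 : ((W ^ e : ℕ) : ℝ) ^ L ≤ (L7h35.RQ5.h (W ^ e) : ℝ) := by
        rcases h3 (W ^ e) with h6 | h6
        · exact h6
        · have : 0 < W ^ e := pow_pos hW _
          omega
      have h6 : (L7h35.RQ5.h (W ^ e) : ℝ) ≤ c * (W : ℝ) ^ 2 ^ m := by exact_mod_cast hs W hW
      have h7 : ((W ^ e : ℕ) : ℝ) ^ L = (W : ℝ) ^ ((e : ℝ) * L) := by
        push_cast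
        rw [Real.rpow_mul hW0.le, Real.rpow_natCast]
      have h8 : (W : ℝ) ^ ((2 : ℝ) ^ m) = (W : ℝ) ^ 2 ^ m := by
        have h9 := Real.rpow_natCast (W : ℝ) (2 ^ m)
        push_cast at h9
        exact h9
      rw [Real.rpow_sub hW0, div_le_iff₀ (by positivity), h8, ← h7]
      exact h5.trans h6
    have h5 : (e : ℝ) = 2 ^ (m + 1) - 1 := by
      have : ((e + 1 : ℕ) : ℝ) = 2 ^ (m + 1) := by
        rw [he]
        push_cast
        rfl
      push_cast at this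
      linarith
    rw [h5] at h4
    have h6 : (2 : ℝ) ^ (m + 1) = 2 * 2 ^ m := by ring
    nlinarith
  by_contra hc
  push Not at hc
  have hd : 0 < L - 1 / 2 := by linarith
  have h4 : Tendsto (fun m : ℕ => (2 : ℝ) ^ (m + 1) * (L - 1 / 2)) atTop atTop :=
    ((tendsto_pow_atTop_atTop_of_one_lt (by norm_num : (1 : ℝ) < 2)).comp
      (tendsto_add_atTop_nat 1)).atTop_mul_const hd
  obtain ⟨m, hm⟩ := (h4.eventually_gt_atTop L).exists
  exact absurd (key m) (not_le.2 hm)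

end Pool.Agent.Results.MP_f9e5d9_nt.LimitIsOneHalf
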